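import Pool.Agent.H20.UpCol

namespace Pool.Agent.Results.MP_ca77af_co.Trees
open Pool.Agent.H20

theorem result (n : ℕ) (T : SimpleGraph (Fin n)) (hT : T.IsTree) :
    upColorWeight T ≤ romanNum T := UpCol.main T hT

end Pool.Agent.Results.MP_ca77af_co.Trees
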